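import Pool.Agent.Helper56.Koszul.Defs

/-!
# KZ-2: linear presentations are transported by semilinear maps that are injective on `N`
-/

namespace Pool.Agent.Helper40.KZ

open Pool.Agent.Helper56.Koszul

universe u

theorem transport_step {S S' : Type u} [CommRing S] [CommRing S'] (θ : S ≃+* S')
    (S1 : AddSubgroup S) (S1' : AddSubgroup S')
    {ι ι' : Type} (N : Submodule S (ι → S)) (N' : Submodule S' (ι' → S'))
    (Θ : (ι → S) →+ (ι' → S')) (h1 : ∀ (c : S) (f : ι → S), Θ (c • f) = θ c • Θ f)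
    (h2 : ∀ f ∈ N, Θ f = 0 → f = 0)
    (h3 : ∀ f ∈ N, (∀ i, f i ∈ S1) → ∀ i, Θ f i ∈ S1')
    (h4 : ∀ y, y ∈ N' ↔ ∃ x ∈ N, Θ x = y)
    {κ : Type} [Fintype κ] (v : κ → ι → S) (hv : ∀ j i, v j i ∈ S1)
    (hs : Submodule.span S (Set.range v) = N) :
    (∀ j i, Θ (v j) i ∈ S1') ∧ Submodule.span S' (Set.range fun j => Θ (v j)) = N' ∧
    (∀ c' : κ → S', c' ∈ Ker (fun j => Θ (v j)) ↔ ∃ c ∈ Ker v, (fun j => θ (c j)) = c') := by
  have hvN : ∀ j, v j ∈ N := fun j => hs ▸ Submodule.subset_span ⟨j, rfl⟩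
  have hsum : ∀ c : κ → S, Θ (∑ j, c j • v j) = ∑ j, θ (c j) • Θ (v j) := by
    intro c
    rw [map_sum]
    exact Finset.sum_congr rfl fun j _ => h1 _ _
  refine ⟨fun j => h3 _ (hvN j) (hv j), ?_, ?_⟩
  · apply le_antisymm
    · rw [Submodule.span_le]
      rintro _ ⟨j, rfl⟩
      exact (h4 _).2 ⟨v j, hvN j, rfl⟩
    · intro y hy
      obtain ⟨x, hx, rfl⟩ := (h4 _).1 hy
      rw [← hs] at hx
      obtain ⟨c, rfl⟩ := (Submodule.mem_span_range_iff_exists_fun S).1 hx
      rw [hsum]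
      exact Submodule.sum_mem _ fun j _ => Submodule.smul_mem _ _ (Submodule.subset_span ⟨j, rfl⟩)
  · intro c'
    constructor
    · intro hc'
      refine ⟨fun j => θ.symm (c' j), ?_, funext fun j => θ.apply_symm_apply _⟩
      have h0 : ∑ j, θ.symm (c' j) • v j = 0 := by
        apply h2 _ (Submodule.sum_mem _ fun j _ => Submodule.smul_mem _ _ (hvN j))
        rw [hsum]
        funext i
        have := hc' i
        simpa only [Finset.sum_apply, Pi.smul_apply, smul_eq_mul, RingEquiv.apply_symm_apply,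
          Pi.zero_apply] using this
      intro i
      have := congrFun h0 i
      simpa only [Finset.sum_apply, Pi.smul_apply, smul_eq_mul, Pi.zero_apply] using this
    · rintro ⟨c, hc, rfl⟩ i
      have h0 : ∑ j, c j • v j = 0 := by
        funext i
        simpa only [Finset.sum_apply, Pi.smul_apply, smul_eq_mul, Pi.zero_apply] using hc i
      have h5 := hsum c
      rw [h0, map_zero] at h5
      have := congrFun h5.symm i
      simpa only [Finset.sum_apply, Pi.smul_apply, smul_eq_mul, Pi.zero_apply] using this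

theorem Lin_transport {S S' : Type u} [CommRing S] [CommRing S'] (θ : S ≃+* S')
    (S1 : AddSubgroup S) (S1' : AddSubgroup S') (hθ : ∀ x ∈ S1, θ x ∈ S1') (n : ℕ) :
    ∀ {ι ι' : Type} (N : Submodule S (ι → S)) (N' : Submodule S' (ι' → S'))
    (Θ : (ι → S) →+ (ι' → S')) (_ : ∀ (c : S) (f : ι → S), Θ (c • f) = θ c • Θ f)
    (_ : ∀ f ∈ N, Θ f = 0 → f = 0)
    (_ : ∀ f ∈ N, (∀ i, f i ∈ S1) → ∀ i, Θ f i ∈ S1')
    (_ : ∀ y, y ∈ N' ↔ ∃ x ∈ N, Θ x = y)
    (_ : Lin S1 n ι N), Lin S1' n ι' N' := by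
  induction n with
  | zero =>
    intro ι ι' N N' Θ h1 h2 h3 h4 hL
    obtain ⟨κ, _, v, hv, hs⟩ := hL
    obtain ⟨a, b, -⟩ := transport_step θ S1 S1' N N' Θ h1 h2 h3 h4 v hv hs
    exact ⟨κ, inferInstance, fun j => Θ (v j), a, b⟩
  | succ n ih =>
    intro ι ι' N N' Θ h1 h2 h3 h4 hL
    obtain ⟨κ, _, v, hv, hs, hK⟩ := hL
    obtain ⟨a, b, c⟩ := transport_step θ S1 S1' N N' Θ h1 h2 h3 h4 v hv hs
    refine ⟨κ, inferInstance, fun j => Θ (v j), a, b, ?_⟩
    let Θ' : (κ → S) →+ (κ → S') :=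
      { toFun := fun f j => θ (f j)
        map_zero' := by funext j; exact map_zero _
        map_add' := by intro f g; funext j; exact map_add _ _ _ }
    refine ih (Ker v) (Ker fun j => Θ (v j)) Θ' ?_ ?_ ?_ ?_ hK
    · intro c f
      funext j
      exact map_mul θ _ _
    · intro f _ hf
      funext j
      have := congrFun hf j
      exact (map_eq_zero_iff θ θ.injective).1 this
    · intro f _ hf i
      exact hθ _ (hf i)
    · intro y
      rw [c y]
      rfl

end Pool.Agent.Helper40.KZ
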